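import Pool.Agent.helper63.TI.SpecA

/-! Project ti (MP_3703a7_ag): proof of `REL_stmt` (no multiplicative relations). -/

set_option autoImplicit false

namespace Pool.Agent.TI

open Polynomial NumberField Pool.Agent.GJ Pool.Agent.TK Pool.Agent.TQ Pool.Agent.TFQ Pool.Agent.TD Pool.Agent.AQ
open Pool.Agent.FJ (VT Om chiO IsFrobO rf rs)
open scoped TensorProduct

noncomputable section

section REL_aux

variable {K : Type} [NormedField K] [IsUltrametricDist K]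

lemma REL_add {x y : K} {r : ℝ} (hx : ‖x‖ ≤ r) (hy : ‖y‖ ≤ r) : ‖x + y‖ ≤ r :=
  (IsUltrametricDist.norm_add_le_max x y).trans (max_le hx hy)

lemma REL_sub {x y : K} {r : ℝ} (hx : ‖x‖ ≤ r) (hy : ‖y‖ ≤ r) : ‖x - y‖ ≤ r := by
  rw [sub_eq_add_neg]
  exact REL_add hx (by rwa [norm_neg])

lemma REL_mul {x y : K} {a b r : ℝ} (hx : ‖x‖ ≤ a) (hy : ‖y‖ ≤ b) (h : a * b ≤ r) : ‖x * y‖ ≤ r := by
  rw [norm_mul]
  exact (mul_le_mul hx hy (norm_nonneg _) ((norm_nonneg _).trans hx)).trans h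

lemma REL_int (k : ℤ) : ‖(k : K)‖ ≤ 1 := IsUltrametricDist.norm_intCast_le_one K k

lemma REL_nat (k : ℕ) : ‖(k : K)‖ ≤ 1 := IsUltrametricDist.norm_natCast_le_one K k

/-- natural powers -/
lemma REL_powN {x : K} (hx : ‖x‖ ≤ 1) (k : ℕ) : ‖(1 + x) ^ k - 1 - (k : K) * x‖ ≤ ‖x‖ ^ 2 := by
  induction k with
  | zero => simp
  | succ k ih =>
    have h0 : (0 : ℝ) ≤ ‖x‖ := norm_nonneg x
    have e : (1 + x) ^ (k + 1) - 1 - ((k + 1 : ℕ) : K) * x =
        ((1 + x) ^ k - 1 - (k : K) * x) * (1 + x) + (k : K) * (x * x) := by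
      push_cast
      ring
    rw [e]
    refine REL_add (REL_mul ih (REL_add (le_of_eq norm_one) hx) (by simp)) ?_
    refine REL_mul (REL_nat k) (REL_mul le_rfl le_rfl le_rfl) ?_
    nlinarith

lemma REL_one {x : K} (hx : ‖x‖ < 1) : ‖1 + x‖ = 1 := by
  have h : ‖x‖ ≠ ‖(1 : K)‖ := by
    rw [norm_one]
    exact ne_of_lt hx
  have := IsUltrametricDist.norm_add_eq_max_of_norm_ne_norm h.symm
  rw [this, norm_one, max_eq_left hx.le]

/-- integral powers -/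
lemma REL_powZ {x : K} (hx : ‖x‖ < 1) (k : ℤ) : ‖(1 + x) ^ k - 1 - (k : K) * x‖ ≤ ‖x‖ ^ 2 := by
  have h0 : (0 : ℝ) ≤ ‖x‖ := norm_nonneg x
  obtain ⟨n, rfl | rfl⟩ := k.eq_nat_or_neg
  · have := REL_powN hx.le n
    simpa using this
  · have h1 := REL_powN hx.le n
    have hu : ‖(1 + x) ^ n‖ = 1 := by rw [norm_pow, REL_one hx, one_pow]
    have hne : (1 + x) ^ n ≠ 0 := by
      intro h
      rw [h, norm_zero] at hu
      exact zero_ne_one hu
    have e : (1 + x) ^ (-(n : ℤ)) - 1 - ((-(n : ℤ) : ℤ) : K) * x =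
        ((1 + x) ^ n)⁻¹ * ((n : K) * (n : K) * (x * x) - ((1 + x) ^ n - 1 - (n : K) * x) * (1 - (n : K) * x)) := by
      rw [zpow_neg, zpow_natCast]
      push_cast
      field_simp
      ring
    rw [e]
    have hi : ‖((1 + x) ^ n)⁻¹‖ ≤ 1 := by rw [norm_inv, hu, inv_one]
    refine REL_mul hi ?_ (le_of_eq (one_mul _))
    refine REL_sub ?_ ?_
    · refine REL_mul (REL_mul (REL_nat n) (REL_nat n) (by norm_num : (1 : ℝ) * 1 ≤ 1)) (REL_mul le_rfl le_rfl le_rfl) ?_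
      nlinarith
    · refine REL_mul h1 (REL_sub (le_of_eq norm_one) (REL_mul (REL_nat n) hx.le (by norm_num : (1 : ℝ) * 1 ≤ 1))) ?_
      simp

/-- products -/
lemma REL_prod {ι : Type} (s : Finset ι) (u a : ι → K) (ρ δ : ℝ) (hρ0 : 0 ≤ ρ) (hδ0 : 0 ≤ δ) (hρ : ρ ≤ 1) (hδ : δ ≤ 1)
    (hρδ : ρ * ρ ≤ δ) (ha : ∀ i ∈ s, ‖a i‖ ≤ ρ) (hu : ∀ i ∈ s, ‖u i - 1 - a i‖ ≤ δ) :
    ‖∑ i ∈ s, a i‖ ≤ ρ ∧ ‖∏ i ∈ s, u i - 1 - ∑ i ∈ s, a i‖ ≤ δ := by
  classical
  induction s using Finset.induction_on with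
  | empty => simpa using ⟨hρ0, hδ0⟩
  | insert j s hj ih =>
    obtain ⟨h1, h2⟩ := ih (fun i hi => ha i (Finset.mem_insert_of_mem hi)) (fun i hi => hu i (Finset.mem_insert_of_mem hi))
    have ha' := ha j (Finset.mem_insert_self j s)
    have hu' := hu j (Finset.mem_insert_self j s)
    rw [Finset.sum_insert hj, Finset.prod_insert hj]
    refine ⟨REL_add ha' h1, ?_⟩
    have e : u j * ∏ i ∈ s, u i - 1 - (a j + ∑ i ∈ s, a i) =
        a j * ∑ i ∈ s, a i + (∏ i ∈ s, u i - 1 - ∑ i ∈ s, a i) * (1 + (a j + (u j - 1 - a j))) +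
          (u j - 1 - a j) * (1 + ∑ i ∈ s, a i) := by ring
    rw [e]
    have o1 : ‖(1 : K)‖ ≤ 1 := le_of_eq norm_one
    refine REL_add (REL_add (REL_mul ha' h1 hρδ) (REL_mul h2 (REL_add o1 (REL_add (ha'.trans hρ) (hu'.trans hδ))) (by simp)))
      (REL_mul hu' (REL_add o1 (h1.trans hρ)) (by simp))

/-- a positive lower bound for finitely many nonzero values -/
lemma REL_min {α : Type} (s : Finset α) (f : α → K) : ∃ d : ℝ, 0 < d ∧ ∀ k ∈ s, f k ≠ 0 → d ≤ ‖f k‖ := by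
  classical
  induction s using Finset.induction_on with
  | empty => exact ⟨1, one_pos, by simp⟩
  | insert j s hj ih =>
    obtain ⟨d, hd, h⟩ := ih
    by_cases hf : f j = 0
    · refine ⟨d, hd, fun k hk hk0 => ?_⟩
      rcases Finset.mem_insert.1 hk with rfl | hk
      · exact absurd hf hk0
      · exact h k hk hk0
    · refine ⟨min d ‖f j‖, lt_min hd (norm_pos_iff.2 hf), fun k hk hk0 => ?_⟩
      rcases Finset.mem_insert.1 hk with rfl | hk
      · exact min_le_right _ _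
      · exact (min_le_left _ _).trans (h k hk hk0)

/-- the main estimate -/
lemma REL_main {ι : Type} [Fintype ι] (y η : ι → K) (k : ι → ℤ) (P c : K) (c' : ℤ) (R ε d : ℝ) (hR : 1 ≤ R)
    (hy : ∀ i, ‖η i‖ ≤ R) (hε0 : 0 < ε) (hε : ε ≤ 1) (hεd : ε < d) (hηy : ∀ i, ‖η i - y i‖ < ε) (hP0 : P ≠ 0)
    (hP1 : ‖P‖ * R < 1) (hPd : ‖P‖ * R ^ 2 < d) (hc : ‖c - 1‖ ≤ ‖P‖ * ε)
    (hd : d ≤ ‖∑ i, (k i : K) * y i‖) :
    ‖(∏ i, (1 + P * η i) ^ k i) * c ^ c' - 1‖ = ‖P‖ * ‖∑ i, (k i : K) * y i‖ := by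
  have hPp : 0 < ‖P‖ := norm_pos_iff.2 hP0
  have hR0 : 0 ≤ R := zero_le_one.trans hR
  have hPR0 : 0 ≤ ‖P‖ * R := mul_nonneg hPp.le hR0
  have hx : ∀ i, ‖P * η i‖ ≤ ‖P‖ * R := fun i => REL_mul le_rfl (hy i) le_rfl
  obtain ⟨h1, h2⟩ := REL_prod Finset.univ (fun i => (1 + P * η i) ^ k i) (fun i => (k i : K) * (P * η i)) (‖P‖ * R)
    ((‖P‖ * R) * (‖P‖ * R)) hPR0 (mul_nonneg hPR0 hPR0) hP1.le (by nlinarith) le_rfl
    (fun i _ => REL_mul (REL_int (k i)) (hx i) (by simp))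
    (fun i _ => by
      refine (REL_powZ ((hx i).trans_lt hP1) (k i)).trans ?_
      have := hx i
      have h0 := norm_nonneg (P * η i)
      nlinarith)
  have hP1' : ‖P‖ < 1 := by nlinarith
  have hcx : ‖c - 1‖ < 1 := by
    refine hc.trans_lt ?_
    nlinarith
  have hcc : ‖c ^ c' - 1‖ ≤ ‖P‖ * ε := by
    have h3 := REL_powZ hcx c'
    rw [add_sub_cancel] at h3
    have e : c ^ c' - 1 = (c ^ c' - 1 - (c' : K) * (c - 1)) + (c' : K) * (c - 1) := by ring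
    rw [e]
    refine REL_add (h3.trans ?_) (REL_mul (REL_int c') hc (by simp))
    have h0 := norm_nonneg (c - 1)
    nlinarith
  have hsum : ‖∑ i, (k i : K) * (η i - y i)‖ ≤ ε := by
    refine IsUltrametricDist.norm_sum_le_of_forall_le_of_nonneg hε0.le ?_
    intro i _
    exact REL_mul (REL_int (k i)) (hηy i).le (by simp)
  have hsplit : (∏ i, (1 + P * η i) ^ k i) * c ^ c' - 1 =
      ((∏ i, (1 + P * η i) ^ k i - 1 - ∑ i, (k i : K) * (P * η i)) +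
        ((c ^ c' - 1) * (1 + ∑ i, (k i : K) * (P * η i) + (∏ i, (1 + P * η i) ^ k i - 1 - ∑ i, (k i : K) * (P * η i))) +
          P * ∑ i, (k i : K) * (η i - y i))) + P * ∑ i, (k i : K) * y i := by
    have e2 : ∑ i, (k i : K) * (P * η i) = P * ∑ i, (k i : K) * (η i - y i) + P * ∑ i, (k i : K) * y i := by
      rw [← mul_add, ← Finset.sum_add_distrib, Finset.mul_sum]
      refine Finset.sum_congr rfl fun i _ => ?_
      ring
    rw [show (c ^ c' - 1) * (1 + ∑ i, (k i : K) * (P * η i) + (∏ i, (1 + P * η i) ^ k i - 1 - ∑ i, (k i : K) * (P * η i))) =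
      (c ^ c' - 1) * ∏ i, (1 + P * η i) ^ k i by ring]
    rw [e2]
    ring
  rw [hsplit]
  set m : ℝ := max (‖P‖ * R * (‖P‖ * R)) (‖P‖ * ε) with hm
  have hE : ‖(∏ i, (1 + P * η i) ^ k i - 1 - ∑ i, (k i : K) * (P * η i)) +
        ((c ^ c' - 1) * (1 + ∑ i, (k i : K) * (P * η i) + (∏ i, (1 + P * η i) ^ k i - 1 - ∑ i, (k i : K) * (P * η i))) +
          P * ∑ i, (k i : K) * (η i - y i))‖ ≤ m := by
    refine REL_add (h2.trans (le_max_left _ _)) (REL_add ?_ ?_)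
    · refine REL_mul hcc (REL_add (REL_add (le_of_eq norm_one) (h1.trans hP1.le)) (h2.trans (by nlinarith))) ?_
      rw [mul_one]
      exact le_max_right _ _
    · exact (REL_mul le_rfl hsum le_rfl).trans (le_max_right _ _)
  have hlt : m < ‖P * ∑ i, (k i : K) * y i‖ := by
    rw [norm_mul]
    refine lt_of_lt_of_le ?_ (mul_le_mul_of_nonneg_left hd hPp.le)
    rw [hm]
    refine max_lt ?_ ?_
    · calc ‖P‖ * R * (‖P‖ * R) = ‖P‖ * (‖P‖ * R ^ 2) := by ring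
        _ < ‖P‖ * d := mul_lt_mul_of_pos_left hPd hPp
    · exact mul_lt_mul_of_pos_left hεd hPp
  have hne := ne_of_lt (hE.trans_lt hlt)
  rw [IsUltrametricDist.norm_add_eq_max_of_norm_ne_norm hne, max_eq_right (hE.trans hlt.le), norm_mul]

end REL_aux

theorem REL (hROU : ROU_stmt) : REL_stmt := by
  intro q _ ι _ y B
  classical
  have hq1 : ‖(q : PadicAlgCl q)‖ < 1 := by
    have h := PadicAlgCl.norm_extends q (q : ℚ_[q])
    have e : ((q : ℚ_[q]) : PadicAlgCl q) = (q : PadicAlgCl q) := map_natCast (algebraMap ℚ_[q] (PadicAlgCl q)) q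
    rw [e] at h
    rw [h]
    exact Padic.norm_p_lt_one
  have hq0 : (q : PadicAlgCl q) ≠ 0 := Nat.cast_ne_zero.2 (Fact.out : q.Prime).ne_zero
  have hqp : 0 < ‖(q : PadicAlgCl q)‖ := norm_pos_iff.2 hq0
  set R : ℝ := 1 + ∑ i, ‖y i‖ with hR
  have hRy : ∀ i, ‖y i‖ ≤ ∑ i, ‖y i‖ := fun i =>
    Finset.single_le_sum (f := fun i => ‖y i‖) (fun _ _ => norm_nonneg _) (Finset.mem_univ i)
  have hR1 : 1 ≤ R := by
    rw [hR]
    have : 0 ≤ ∑ i, ‖y i‖ := Finset.sum_nonneg fun _ _ => norm_nonneg _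
    linarith
  have hR0 : 0 < R := zero_lt_one.trans_le hR1
  obtain ⟨d, hd0, hd⟩ := REL_min (Fintype.piFinset fun _ : ι => Finset.Icc (-(B : ℤ)) B)
    (fun k : ι → ℤ => ∑ i, (k i : PadicAlgCl q) * y i)
  set ε : ℝ := min 1 (d / 2) with hε
  have hε0 : 0 < ε := lt_min one_pos (half_pos hd0)
  have hε1 : ε ≤ 1 := min_le_left _ _
  have hεd : ε < d := (min_le_right _ _).trans_lt (half_lt_self hd0)
  obtain ⟨N1, hN1⟩ := exists_pow_lt_of_lt_one (lt_min (div_pos hd0 (pow_pos hR0 2)) (div_pos (pow_pos hqp 2) hR0)) hq1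
  refine ⟨ε, N1, hε0, ?_⟩
  intro N hN η c hη hc k c' M hk hM hne
  set P : PadicAlgCl q := (q : PadicAlgCl q) ^ N with hP
  have hPN : ‖P‖ ≤ ‖(q : PadicAlgCl q)‖ ^ N1 := by
    rw [hP, norm_pow]
    exact pow_le_pow_of_le_one hqp.le hq1.le hN
  have hP0 : P ≠ 0 := pow_ne_zero _ hq0
  have hPa : ‖P‖ * R ^ 2 < d := by
    have := hPN.trans_lt (hN1.trans_le (min_le_left _ _))
    rwa [lt_div_iff₀ (pow_pos hR0 2)] at this
  have hPb : ‖P‖ * R < ‖(q : PadicAlgCl q)‖ ^ 2 := by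
    have := hPN.trans_lt (hN1.trans_le (min_le_right _ _))
    rwa [lt_div_iff₀ hR0] at this
  have hPc : ‖P‖ * R < 1 := hPb.trans (by nlinarith)
  have hkS : d ≤ ‖∑ i, (k i : PadicAlgCl q) * y i‖ := by
    refine hd k ?_ hne
    rw [Fintype.mem_piFinset]
    intro i
    rw [Finset.mem_Icc]
    exact abs_le.1 (hk i)
  have hηR : ∀ i, ‖η i‖ ≤ R := by
    intro i
    have h1 : η i = (η i - y i) + y i := by ring
    rw [h1]
    refine (norm_add_le _ _).trans ?_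
    rw [hR]
    exact add_le_add ((hη i).le.trans hε1) (hRy i)
  have key := REL_main y η k P c c' R ε d hR1 hηR hε0 hε1 hεd hη hP0 hPc hPa hc hkS
  have hSR : ‖∑ i, (k i : PadicAlgCl q) * y i‖ ≤ R := by
    refine IsUltrametricDist.norm_sum_le_of_forall_le_of_nonneg hR0.le ?_
    intro i _
    refine REL_mul (REL_int (k i)) ((hRy i).trans ?_) (le_of_eq (one_mul _))
    rw [hR]
    linarith
  have hz : ‖(∏ i, (1 + P * η i) ^ k i) * c ^ c' - 1‖ ≤ ‖(q : PadicAlgCl q)‖ ^ 2 := by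
    rw [key]
    exact (mul_le_mul_of_nonneg_left hSR (norm_nonneg _)).trans hPb.le
  have h := hROU q _ hz M hM
  rw [add_sub_cancel] at h
  intro h1
  rw [h1, sub_self, norm_zero, key] at h
  have hMn : (M : PadicAlgCl q) ≠ 0 := Nat.cast_ne_zero.2 hM.ne'
  have hpos : 0 < ‖(M : PadicAlgCl q)‖ * (‖P‖ * ‖∑ i, (k i : PadicAlgCl q) * y i‖) :=
    mul_pos (norm_pos_iff.2 hMn) (mul_pos (norm_pos_iff.2 hP0) (hd0.trans_le hkS))
  exact absurd h (ne_of_lt hpos)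

end

end Pool.Agent.TI
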